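import Pool.Agent.LibNV38.V5
import Pool.Agent.LibNC38.K6
import Pool.Agent.LibNC27.A2b
import Pool.Agent.LibNC27.A3

set_option autoImplicit false

open Matrix MeasureTheory Topology Filter

namespace LibNC38

/-- Row V6. The linearized curvature of the flats vanishes on the whole group (compare
`LibNC38/K6.lean`): `S x = J2 w w v v x - 2 * J2 w v v w x + J2 v v w w x` is continuous and left
invariant, `gdl L S` is continuous and vanishes on the dense set of G5 (V5, `L = List.ofFn ws` over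
an enumeration of the pairs `i ≠ j`, `ws` from `exists_w`), so it is zero, `peel` (J4): `S` is constant
`= c`. `S = φ' + ψ'` with `φ = J1 w v v - 2 J1 v v w`, `φ' = J2 w w v v - 2 J2 w v v w` (`Rd w φ φ'`),
`ψ = J1 v w w`, `ψ' = J2 v v w w` (`Rd v ψ ψ'`), so `c = 0` by `box_zero` (LibNC27/A2b). -/
theorem flat_S {n : ℕ} (hn : 3 ≤ n) (Γ : Subgroup (SL n)) (hd : Disc Γ) (hc : Coc Γ)
    (κ : PD n → Fm n) (h : ℕ → PD n → Fm n) (δ : ℕ → ℝ) (hD : Defo Γ κ h δ)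
    (J : V0 n →ₗ[ℝ] V0 n →ₗ[ℝ] LibNC27.Fn n)
    (J1 : V0 n →ₗ[ℝ] V0 n →ₗ[ℝ] V0 n →ₗ[ℝ] LibNC27.Fn n)
    (J2 : V0 n →ₗ[ℝ] V0 n →ₗ[ℝ] V0 n →ₗ[ℝ] V0 n →ₗ[ℝ] LibNC27.Fn n)
    (A : LibNC27.Ab Γ J J1 J2) (hJ : ∀ v w g, J v w g = Jf κ (dm v) (dm w) g) :
    LibNC27.Flat J2 := by
  classical
  intro v w g
  let S : SL n → ℝ := fun x => J2 w w v v x - 2 * J2 w v v w x + J2 v v w w x
  have hSc : Continuous S :=
    (((A.inv2 w w v v).cont.sub (continuous_const.mul (A.inv2 w v v w).cont))).add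
      (A.inv2 v v w w).cont
  have hSi : ∀ γ ∈ Γ, ∀ g, S (γ * g) = S g := by
    intro γ hγ g
    change J2 w w v v (γ * g) - 2 * J2 w v v w (γ * g) + J2 v v w w (γ * g) =
      J2 w w v v g - 2 * J2 w v v w g + J2 v v w w g
    rw [(A.inv2 w w v v).inv γ hγ, (A.inv2 w v v w).inv γ hγ, (A.inv2 v v w w).inv γ hγ]
  -- the pairs
  let P := {x : Fin n × Fin n // x.1 ≠ x.2}
  let m := Fintype.card P
  let ε : Fin m ≃ P := (Fintype.equivFin P).symm
  have hex : ∀ j : Fin m, ∃ w : V0 n, w ≠ 0 ∧ w.1 (ε j).1.1 = w.1 (ε j).1.2 :=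
    fun j => exists_w hn _ _ (ε j).2
  choose ws hw0 hw using hex
  have hm : 0 < m := by
    apply Fintype.card_pos_iff.2
    exact ⟨⟨(⟨0, by omega⟩, ⟨1, by omega⟩), by
      intro h
      exact absurd (congrArg Fin.val h) (by norm_num)⟩⟩
  have hall : ∀ i i' : Fin n, i ≠ i' → ∃ j, ((ε j).1.1 = i ∧ (ε j).1.2 = i') ∨
      ((ε j).1.1 = i' ∧ (ε j).1.2 = i) := by
    intro i i' hii
    refine ⟨ε.symm ⟨(i, i'), hii⟩, Or.inl ?_⟩
    rw [Equiv.apply_symm_apply]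
    exact ⟨rfl, rfl⟩
  have hcont : ∀ L : List (V0 n), Continuous (gdl L S) := by
    intro L
    induction L with
    | nil => exact hSc
    | cons u L ih =>
      have h1 : gdl (u :: L) S = fun g => gdl L S (g * dgm u) - gdl L S g := rfl
      rw [h1]
      exact (ih.comp (continuous_mul_const _)).sub ih
  have hzero : ∀ g, gdl (List.ofFn ws) S g = 0 := by
    intro g0
    have hcl : IsClosed {g | gdl (List.ofFn ws) S g = 0} :=
      isClosed_eq (hcont _) continuous_const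
    have hmem : g0 ∈ closure {g | gdl (List.ofFn ws) S g = 0} := by
      rw [mem_closure_iff_nhds]
      intro U hU
      obtain ⟨h', hhU, α, hα, hr, hαΓ⟩ := dens Γ hd hc g0 U hU
      exact ⟨h', hhU, gdlS_zero_at (by omega) Γ hd hc κ h δ hD J J1 J2 A hJ h' α hα hr hαΓ hm
        (fun j => (ε j).1.1) (fun j => (ε j).1.2) (fun j => (ε j).2) hall ws hw v w⟩
    rw [hcl.closure_eq] at hmem
    exact hmem
  have hL : ∀ u ∈ List.ofFn ws, u ≠ 0 := by
    intro u hu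
    obtain ⟨j, rfl⟩ := (List.mem_ofFn' ws u).1 hu
    exact hw0 j
  have hconst := peel Γ hc S hSc hSi (List.ofFn ws) hL 0 hzero
  -- the box average
  have hφi : LibNC27.Inv Γ (J1 w v v + (-2 : ℝ) • J1 v v w) := by
    refine ⟨(A.inv1 w v v).cont.add ((A.inv1 v v w).cont.const_smul (-2 : ℝ)), ?_⟩
    intro γ hγ g
    change J1 w v v (γ * g) + (-2 : ℝ) * J1 v v w (γ * g) = J1 w v v g + (-2 : ℝ) * J1 v v w g
    rw [(A.inv1 w v v).inv γ hγ, (A.inv1 v v w).inv γ hγ]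
  have hφ'c : Continuous (J2 w w v v + (-2 : ℝ) • J2 w v v w) :=
    (A.inv2 w w v v).cont.add ((A.inv2 w v v w).cont.const_smul (-2 : ℝ))
  have hR1 : LibNC27.Rd w (J1 w v v + (-2 : ℝ) • J1 v v w) (J2 w w v v + (-2 : ℝ) • J2 w v v w) :=
    LibNC27.Rd_add w _ _ _ _ (A.d2 w w v v) (LibNC27.Rd_smul w _ _ (-2) (A.d2 w v v w))
  have hc0 : S 1 = 0 := by
    refine LibNC27.box_zero Γ hc (J1 w v v + (-2 : ℝ) • J1 v v w) (J1 v w w)
      (J2 w w v v + (-2 : ℝ) • J2 w v v w) (J2 v v w w) hφi (A.inv1 v w w) hφ'c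
      (A.inv2 v v w w).cont w v hR1 (A.d2 v v w w) (S 1) ?_
    intro g
    rw [← hconst g]
    change J2 w w v v g + (-2 : ℝ) * J2 w v v w g + J2 v v w w g =
      J2 w w v v g - 2 * J2 w v v w g + J2 v v w w g
    ring
  have h1 := hconst g
  rw [hc0] at h1
  exact h1

end LibNC38
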