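import Pool.Agent.LibNC38.H4

set_option autoImplicit false

open Finset

namespace LibNC38

private theorem V1_sq {r m : ℕ} (k : Fin r → ℤ) (β : Fin m → ((Fin r → ℝ) →ₗ[ℝ] ℝ))
    (hβ : ∀ j, ¬ ∃ c : ℝ, ∀ x, β j x = c * ∑ i, (k i : ℝ) * x i)
    (B : (Fin r → ℝ) →ₗ[ℝ] (Fin r → ℝ) →ₗ[ℝ] ℂ) (hB : ∀ x y, B x y = B y x)
    (h : ∀ l : Fin r → ℤ, ∑ i, (k i : ℝ) * (l i : ℝ) = 0 → (∀ j, β j (fun i => (l i : ℝ)) ≠ 0) →
      B (fun i => (l i : ℝ)) (fun i => (l i : ℝ)) = 0)
    (l : Fin r → ℤ) (hl : ∑ i, (k i : ℝ) * (l i : ℝ) = 0) :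
    B (fun i => (l i : ℝ)) (fun i => (l i : ℝ)) = 0 := by
  classical
  obtain ⟨l0, hl0, hl0'⟩ := exists_l k β hβ
  set v : Fin r → ℝ := fun i => (l i : ℝ) with hv
  set v0 : Fin r → ℝ := fun i => (l0 i : ℝ) with hv0
  let p : Polynomial ℂ := Polynomial.C (B v v) + Polynomial.C (2 * B v v0) * Polynomial.X +
    Polynomial.C (B v0 v0) * Polynomial.X ^ 2
  let Q : Polynomial ℂ := ∏ j : Fin m, (Polynomial.C ((β j v : ℝ) : ℂ) +
    Polynomial.C ((β j v0 : ℝ) : ℂ) * Polynomial.X)
  have hQ : Q ≠ 0 := by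
    refine Finset.prod_ne_zero_iff.2 fun j _ h0 => ?_
    have h1 := congrArg (fun q : Polynomial ℂ => q.coeff 1) h0
    simp at h1
    exact hl0' j h1
  have hpt : ∀ t : ℕ, (∀ j, β j v + t * β j v0 ≠ 0) → p.eval (t : ℂ) = 0 := by
    intro t ht
    have h1 := h (fun i => l i + t * l0 i) (by
      push_cast
      have e1 : ∀ i, (k i : ℝ) * ((l i : ℝ) + (t : ℝ) * (l0 i : ℝ)) =
          (k i : ℝ) * (l i : ℝ) + t * ((k i : ℝ) * (l0 i : ℝ)) := fun i => by ring
      rw [Finset.sum_congr rfl fun i _ => e1 i, Finset.sum_add_distrib, ← Finset.mul_sum, hl, hl0]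
      ring)
    have e2 : (fun i => ((l i + t * l0 i : ℤ) : ℝ)) = v + (t : ℝ) • v0 := by
      ext i
      simp [hv, hv0]
    rw [e2] at h1
    have h2 := h1 (fun j => by
      rw [map_add, map_smul, smul_eq_mul]
      exact ht j)
    simp only [map_add, LinearMap.add_apply, map_smul, LinearMap.smul_apply] at h2
    rw [hB v0 v] at h2
    simp only [p, Polynomial.eval_add, Polynomial.eval_mul, Polynomial.eval_C, Polynomial.eval_X,
      Polynomial.eval_pow]
    simp only [Complex.real_smul, Complex.ofReal_natCast] at h2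
    linear_combination h2
  have hpQ : p * Q = 0 := by
    refine Polynomial.eq_zero_of_infinite_isRoot _ ?_
    refine Set.Infinite.mono (s := Set.range fun t : ℕ => (t : ℂ)) ?_ ?_
    · rintro _ ⟨t, rfl⟩
      change (p * Q).eval (t : ℂ) = 0
      rw [Polynomial.eval_mul]
      by_cases ht : ∀ j, β j v + t * β j v0 ≠ 0
      · rw [hpt t ht, zero_mul]
      · push Not at ht
        obtain ⟨j, hj⟩ := ht
        have h3 : Q.eval (t : ℂ) = 0 := by
          simp only [Q, Polynomial.eval_prod]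
          refine Finset.prod_eq_zero (Finset.mem_univ j) ?_
          simp only [Polynomial.eval_add, Polynomial.eval_mul, Polynomial.eval_C,
            Polynomial.eval_X]
          have h4 := congrArg (fun x : ℝ => (x : ℂ)) hj
          push_cast at h4
          linear_combination h4
        rw [h3, mul_zero]
    · exact Set.infinite_range_of_injective Nat.cast_injective
  have hp : p = 0 := (mul_eq_zero.1 hpQ).resolve_right hQ
  have h5 := congrArg (fun q : Polynomial ℂ => q.coeff 0) hp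
  simpa [p] using h5

/-- Row V1. A symmetric bilinear form (complex values) that vanishes at all integer vectors `l` with
`k · l = 0` outside finitely many hyperplanes `β j = 0`, none of which contains the kernel of `k`,
vanishes on the kernel of `k`. (1) H4 gives one such `l0`. For every integer `l` with `k · l = 0` the
vectors `l + t l0`, `t ∈ ℤ`, satisfy the conditions for all but finitely many `t`
(`β j l + t β j l0 ≠ 0`), so the quadratic polynomial `B l l + 2 t B l l0 + t² B l0 l0` has infinitely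
many zeros and `B l l = 0`. (2) By polarization `B l l' = 0` for all integer `l, l'` in the kernel.
(3) Every real `x` with `k · x = 0` is a real combination of the integer vectors
`k a e_b - k b e_a`: if `k a ≠ 0` then `x = ∑ b, (x b / k a) • (k a e_b - k b e_a)`. -/
theorem quad_zero {r m : ℕ} (k : Fin r → ℤ) (hk : k ≠ 0) (β : Fin m → ((Fin r → ℝ) →ₗ[ℝ] ℝ))
    (hβ : ∀ j, ¬ ∃ c : ℝ, ∀ x, β j x = c * ∑ i, (k i : ℝ) * x i)
    (B : (Fin r → ℝ) →ₗ[ℝ] (Fin r → ℝ) →ₗ[ℝ] ℂ) (hB : ∀ x y, B x y = B y x)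
    (h : ∀ l : Fin r → ℤ, ∑ i, (k i : ℝ) * (l i : ℝ) = 0 → (∀ j, β j (fun i => (l i : ℝ)) ≠ 0) →
      B (fun i => (l i : ℝ)) (fun i => (l i : ℝ)) = 0)
    (x : Fin r → ℝ) (hx : ∑ i, (k i : ℝ) * x i = 0) : B x x = 0 := by
  classical
  have hsq := V1_sq k β hβ B hB h
  have hpol : ∀ l l' : Fin r → ℤ, ∑ i, (k i : ℝ) * (l i : ℝ) = 0 →
      ∑ i, (k i : ℝ) * (l' i : ℝ) = 0 → B (fun i => (l i : ℝ)) (fun i => (l' i : ℝ)) = 0 := by
    intro l l' hl hl'
    have h1 := hsq (fun i => l i + l' i) (by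
      push_cast
      have e1 : ∀ i, (k i : ℝ) * ((l i : ℝ) + (l' i : ℝ)) =
          (k i : ℝ) * (l i : ℝ) + (k i : ℝ) * (l' i : ℝ) := fun i => by ring
      rw [Finset.sum_congr rfl fun i _ => e1 i, Finset.sum_add_distrib, hl, hl', add_zero])
    have e2 : (fun i => ((l i + l' i : ℤ) : ℝ)) = (fun i => (l i : ℝ)) + fun i => (l' i : ℝ) := by
      ext i
      simp
    rw [e2] at h1
    simp only [map_add, LinearMap.add_apply] at h1
    rw [hsq l hl, hsq l' hl', hB (fun i => (l' i : ℝ)) (fun i => (l i : ℝ))] at h1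
    have h2 : (2 : ℂ) * B (fun i => (l i : ℝ)) (fun i => (l' i : ℝ)) = 0 := by
      linear_combination h1
    exact (mul_eq_zero.1 h2).resolve_left two_ne_zero
  obtain ⟨a, ha⟩ : ∃ a, k a ≠ 0 := by
    by_contra hcon
    push Not at hcon
    exact hk (funext hcon)
  have ha' : (k a : ℝ) ≠ 0 := by exact_mod_cast ha
  let v : Fin r → Fin r → ℤ := fun b i =>
    k a * (if i = b then 1 else 0) - k b * (if i = a then 1 else 0)
  have hv : ∀ b, ∑ i, (k i : ℝ) * (v b i : ℝ) = 0 := by
    intro b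
    simp only [v, Int.cast_sub, Int.cast_ite, Int.cast_zero, mul_sub, Finset.sum_sub_distrib,
      mul_ite, mul_one, mul_zero, Finset.sum_ite_eq', Finset.mem_univ,
      if_true]
    ring
  have hxx : x = ∑ b, (x b / k a) • (fun i => (v b i : ℝ)) := by
    ext i
    simp only [Finset.sum_apply, Pi.smul_apply, smul_eq_mul, v, Int.cast_sub,
      Int.cast_ite, Int.cast_zero, mul_sub, Finset.sum_sub_distrib, mul_ite, mul_one,
      mul_zero, Finset.sum_ite_eq, Finset.mem_univ, if_true]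
    by_cases hi : i = a
    · subst hi
      simp only [if_true]
      have e1 : ∀ b, x b / (k i : ℝ) * (k b : ℝ) = (k b : ℝ) * x b / (k i : ℝ) := fun b => by ring
      rw [Finset.sum_congr rfl fun b _ => e1 b, ← Finset.sum_div, hx]
      field_simp
      ring
    · simp only [hi, if_false, Finset.sum_const_zero]
      field_simp
      ring
  have h1 : B x x = B (∑ b, (x b / k a) • (fun i => (v b i : ℝ)))
      (∑ b, (x b / k a) • (fun i => (v b i : ℝ))) := by rw [← hxx]
  rw [h1]
  simp only [map_sum, LinearMap.sum_apply, map_smul, LinearMap.smul_apply]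
  refine Finset.sum_eq_zero fun b _ => ?_
  rw [Finset.sum_eq_zero fun c _ => by rw [hpol _ _ (hv c) (hv b), smul_zero], smul_zero]

end LibNC38
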