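import Pool.Agent.LibNC38.H2

set_option autoImplicit false

open MeasureTheory Topology Filter Complex

namespace LibNC38

/-- Row V2. Fourier coefficient of a directional derivative. `f (x + t u) - f x =
∫ s in 0..t, f' (x + s u)` for all `x, t` (the derivative at `x + s u` is the hypothesis at this
point), so by H2 and Fubini `(e^(i θ t) - 1) * fc f k = (∫ s in 0..t, e^(i θ s)) * fc f' k`,
`θ = 2 π k · u`, for all `t`; differentiate at `t = 0`, or distinguish `θ = 0` and `θ ≠ 0`. -/
theorem fc_deriv {r : ℕ} (f f' : (Fin r → ℝ) → ℝ) (hf : Per f) (hf' : Per f') (u : Fin r → ℝ)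
    (h : ∀ x, HasDerivAt (fun t : ℝ => f (x + t • u)) (f' x) 0) (k : Fin r → ℤ) :
    fc f' k = ((2 * Real.pi * (∑ i, (k i : ℝ) * u i) : ℝ) * I) * fc f k := by
  set E : (Fin r → ℝ) → ℂ :=
    fun x => Complex.exp (-(2 * Real.pi * (∑ i, (k i : ℝ) * x i) : ℝ) * I) with hE
  have hEc : Continuous E := by rw [hE]; fun_prop
  have hfc := hf.1
  have hfc' := hf'.1
  set F : ℝ → (Fin r → ℝ) → ℂ := fun t x => ((f (x + t • u) : ℝ) : ℂ) * E x with hF
  set F' : ℝ → (Fin r → ℝ) → ℂ := fun t x => ((f' (x + t • u) : ℝ) : ℂ) * E x with hF'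
  have hFc : ∀ t, Continuous (F t) := fun t => by
    rw [hF]
    exact (Complex.continuous_ofReal.comp (hfc.comp (continuous_id.add continuous_const))).mul hEc
  have hF'c : Continuous fun p : ℝ × (Fin r → ℝ) => F' p.1 p.2 := by
    rw [hF']
    exact (Complex.continuous_ofReal.comp (hfc'.comp
      (continuous_snd.add (continuous_fst.smul continuous_const)))).mul (hEc.comp continuous_snd)
  have hF'c0 : Continuous (F' 0) := hF'c.comp (continuous_const.prodMk continuous_id)
  -- the derivative along the line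
  have hline : ∀ (x : Fin r → ℝ) (t : ℝ), HasDerivAt (fun s : ℝ => F s x) (F' t x) t := by
    intro x t
    have h1 : HasDerivAt (fun s : ℝ => f (x + t • u + (s - t) • u)) (f' (x + t • u)) t := by
      have h2 := h (x + t • u)
      have h3 : HasDerivAt (fun s : ℝ => s - t) 1 t := (hasDerivAt_id t).sub_const t
      have h4 : HasDerivAt (fun s : ℝ => f (x + t • u + s • u)) (f' (x + t • u)) (t - t) := by
        rw [sub_self]
        exact h2
      have h5 := HasDerivAt.comp (h := fun s : ℝ => s - t) t h4 h3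
      rw [mul_one] at h5
      exact h5
    have h6 : (fun s : ℝ => f (x + t • u + (s - t) • u)) = fun s : ℝ => f (x + s • u) := by
      funext s
      congr 1
      rw [add_assoc, ← add_smul]
      congr 2
      ring
    rw [h6] at h1
    exact h1.ofReal_comp.mul_const (E x)
  obtain ⟨M, hM⟩ := ((isCompact_closedBall (0 : ℝ) 1).prod
    (isCompact_Icc (a := (0 : Fin r → ℝ)) (b := 1))).exists_bound_of_continuousOn hF'c.continuousOn
  have hder := (hasDerivAt_integral_of_dominated_loc_of_deriv_le
    (μ := volume.restrict (Set.Icc (0 : Fin r → ℝ) 1)) (F := F) (F' := F') (x₀ := (0 : ℝ))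
    (s := Metric.closedBall (0 : ℝ) 1) (bound := fun _ => M)
    (Metric.closedBall_mem_nhds _ one_pos)
    (Eventually.of_forall fun t => (hFc t).aestronglyMeasurable)
    ((hFc 0).continuousOn.integrableOn_compact isCompact_Icc)
    hF'c0.aestronglyMeasurable
    (by
      filter_upwards [ae_restrict_mem measurableSet_Icc] with x hx t ht
      exact hM (t, x) ⟨ht, hx⟩)
    (continuousOn_const.integrableOn_compact isCompact_Icc)
    (Eventually.of_forall fun x t _ => hline x t)).2
  -- the same function by the translation formula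
  set θ : ℝ := 2 * Real.pi * (∑ i, (k i : ℝ) * u i) with hθ
  have h1 : (fun t : ℝ => ∫ x in Set.Icc (0 : Fin r → ℝ) 1, F t x) =
      fun t : ℝ => Complex.exp ((θ : ℂ) * I * (t : ℂ)) * fc f k := by
    funext t
    have h2 := fc_shift f hf (t • u) k
    have h3 : ((2 * Real.pi * (∑ i, (k i : ℝ) * (t • u) i) : ℝ) : ℂ) * I = (θ : ℂ) * I * (t : ℂ) := by
      have h4 : ∑ i, (k i : ℝ) * (t • u) i = t * ∑ i, (k i : ℝ) * u i := by
        rw [Finset.mul_sum]
        exact Finset.sum_congr rfl fun i _ => by
          simp only [Pi.smul_apply, smul_eq_mul]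
          ring
      rw [h4, hθ]
      push_cast
      ring
    rw [h3] at h2
    exact h2
  rw [h1] at hder
  have h5 : HasDerivAt (fun t : ℝ => Complex.exp ((θ : ℂ) * I * (t : ℂ)) * fc f k)
      (((θ : ℂ) * I) * fc f k) 0 := by
    have h6 : HasDerivAt (fun t : ℝ => (θ : ℂ) * I * (t : ℂ)) ((θ : ℂ) * I) 0 := by
      have h7 := (hasDerivAt_id (0 : ℝ)).ofReal_comp.const_mul ((θ : ℂ) * I)
      simpa using h7
    have h8 := h6.cexp.mul_const (fc f k)
    simpa using h8
  have h9 := hder.unique h5
  rw [← h9]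
  unfold fc
  refine setIntegral_congr_fun measurableSet_Icc fun x _ => ?_
  show (f' x : ℂ) * E x = ((f' (x + (0 : ℝ) • u) : ℝ) : ℂ) * E x
  rw [zero_smul, add_zero]

end LibNC38
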