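import Pool.Agent.LibNV38.V1
import Pool.Agent.LibNV38.V2
import Pool.Agent.LibNC38.H3

set_option autoImplicit false

open MeasureTheory Topology Filter Complex

namespace LibNC38

private theorem V4_int {r : ℕ} (f : (Fin r → ℝ) → ℝ) (hf : Continuous f) (k : Fin r → ℤ) :
    IntegrableOn (fun x : Fin r → ℝ =>
      (f x : ℂ) * Complex.exp (-(2 * Real.pi * (∑ i, (k i : ℝ) * x i) : ℝ) * I)) (Set.Icc (0 : Fin r → ℝ) 1) := by
  refine ContinuousOn.integrableOn_compact isCompact_Icc (Continuous.continuousOn ?_)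
  fun_prop

private theorem V4_add {r : ℕ} (f g : (Fin r → ℝ) → ℝ) (hf : Continuous f) (hg : Continuous g)
    (k : Fin r → ℤ) : fc (f + g) k = fc f k + fc g k := by
  unfold fc
  rw [← integral_add (V4_int f hf k) (V4_int g hg k)]
  refine integral_congr_ae (Filter.Eventually.of_forall fun x => ?_)
  simp only [Pi.add_apply]
  push_cast
  ring

private theorem V4_smul {r : ℕ} (c : ℝ) (f : (Fin r → ℝ) → ℝ) (k : Fin r → ℤ) :
    fc (c • f) k = (c : ℂ) * fc f k := by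
  unfold fc
  rw [← integral_const_mul]
  refine integral_congr_ae (Filter.Eventually.of_forall fun x => ?_)
  simp only [Pi.smul_apply, smul_eq_mul]
  push_cast
  ring

/-- Row V4. The linearized curvature of a periodic family of symmetric forms `K v w` on `ℝ^r`
(`v, w ∈ ℝ^r`), `K1 u v w = ∂_u K v w`, `K2 u u' v w = ∂_u K1 u' v w`, has no Fourier coefficients
at `k` not parallel to a `β j` if the X-ray transforms `∫ s in 0..1, K l l (y + s l)` are constant for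
all integer `l` with `β j l ≠ 0`. Proof: `B v w = fc (K v w) k` is bilinear (fc is linear, `fc_sub` is
the difference; sums and multiples in the same way) and symmetric; by H3 `B l l = 0` for integer `l`
with `k · l = 0`, `β j l ≠ 0`, so by V1 `B x x = 0` whenever `k · x = 0`. By V2 twice
`fc (K2 w w v v - 2 K2 w v v w + K2 v v w w) k = - 4 π² B x x` with
`x = (k · w) v - (k · v) w`, and `k · x = 0`. -/
theorem curv_fc {r m : ℕ}
    (K : (Fin r → ℝ) →ₗ[ℝ] (Fin r → ℝ) →ₗ[ℝ] ((Fin r → ℝ) → ℝ))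
    (K1 : (Fin r → ℝ) → (Fin r → ℝ) → (Fin r → ℝ) → ((Fin r → ℝ) → ℝ))
    (K2 : (Fin r → ℝ) → (Fin r → ℝ) → (Fin r → ℝ) → (Fin r → ℝ) → ((Fin r → ℝ) → ℝ))
    (h0 : ∀ v w, Per (K v w)) (h1 : ∀ u v w, Per (K1 u v w)) (h2 : ∀ u u' v w, Per (K2 u u' v w))
    (hs : ∀ v w, K v w = K w v)
    (d1 : ∀ u v w x, HasDerivAt (fun t : ℝ => K v w (x + t • u)) (K1 u v w x) 0)
    (d2 : ∀ u u' v w x, HasDerivAt (fun t : ℝ => K1 u' v w (x + t • u)) (K2 u u' v w x) 0)
    (β : Fin m → ((Fin r → ℝ) →ₗ[ℝ] ℝ))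
    (hx : ∀ l : Fin r → ℤ, (∀ j, β j (fun i => (l i : ℝ)) ≠ 0) →
      ∃ c, ∀ y, ∫ s in (0 : ℝ)..1,
        K (fun i => (l i : ℝ)) (fun i => (l i : ℝ)) (y + s • fun i => (l i : ℝ)) = c)
    (k : Fin r → ℤ) (hk : k ≠ 0) (hβ : ∀ j, ¬ ∃ c : ℝ, ∀ x, β j x = c * ∑ i, (k i : ℝ) * x i)
    (v w : Fin r → ℝ) :
    fc (fun x => K2 w w v v x - 2 * K2 w v v w x + K2 v v w w x) k = 0 := by
  classical
  -- the bilinear form
  obtain ⟨B, hBd⟩ : ∃ B : (Fin r → ℝ) →ₗ[ℝ] (Fin r → ℝ) →ₗ[ℝ] ℂ, ∀ x y, B x y = fc (K x y) k := by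
    refine ⟨LinearMap.mk₂ ℝ (fun x y => fc (K x y) k) ?_ ?_ ?_ ?_, fun x y => rfl⟩
    · intro x x' y
      change fc (K (x + x') y) k = fc (K x y) k + fc (K x' y) k
      rw [map_add, LinearMap.add_apply, V4_add _ _ (h0 x y).1 (h0 x' y).1]
    · intro c x y
      change fc (K (c • x) y) k = c • fc (K x y) k
      rw [map_smul, LinearMap.smul_apply, V4_smul]
      rfl
    · intro x y y'
      change fc (K x (y + y')) k = fc (K x y) k + fc (K x y') k
      rw [map_add, V4_add _ _ (h0 x y).1 (h0 x y').1]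
    · intro c x y
      change fc (K x (c • y)) k = c • fc (K x y) k
      rw [map_smul, V4_smul]
      rfl
  have hsym : ∀ x y, B x y = B y x := by
    intro x y
    rw [hBd, hBd, hs]
  have hz : ∀ x : Fin r → ℝ, ∑ i, (k i : ℝ) * x i = 0 → B x x = 0 := by
    intro x hx'
    refine quad_zero k hk β hβ B hsym ?_ x hx'
    intro l hl hlβ
    obtain ⟨c, hc⟩ := hx l hlβ
    rw [hBd]
    exact fc_xray _ (h0 _ _) (fun i => (l i : ℝ)) k hk hl c hc
  -- the second derivatives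
  have hd : ∀ u u' y z, fc (K2 u u' y z) k =
      ((2 * Real.pi * (∑ i, (k i : ℝ) * u i) : ℝ) * I) *
        (((2 * Real.pi * (∑ i, (k i : ℝ) * u' i) : ℝ) * I) * B y z) := by
    intro u u' y z
    rw [fc_deriv (K1 u' y z) (K2 u u' y z) (h1 u' y z) (h2 u u' y z) u (d2 u u' y z) k,
      fc_deriv (K y z) (K1 u' y z) (h0 y z) (h1 u' y z) u' (d1 u' y z) k, hBd]
  have hsum : fc (fun x => K2 w w v v x - 2 * K2 w v v w x + K2 v v w w x) k =
      fc (K2 w w v v) k - 2 * fc (K2 w v v w) k + fc (K2 v v w w) k := by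
    have e1 : (fun x => K2 w w v v x - 2 * K2 w v v w x + K2 v v w w x) =
        (K2 w w v v + (-2 : ℝ) • K2 w v v w) + K2 v v w w := by
      funext x
      simp only [Pi.add_apply, Pi.smul_apply, smul_eq_mul]
      ring
    have c1 : Continuous ((-2 : ℝ) • K2 w v v w) := (h2 w v v w).1.const_smul (-2 : ℝ)
    rw [e1, V4_add _ _ ((h2 w w v v).1.add c1) (h2 v v w w).1, V4_add _ _ (h2 w w v v).1 c1, V4_smul]
    push_cast
    ring
  obtain ⟨κv, hκv⟩ : ∃ t : ℝ, t = ∑ i, (k i : ℝ) * v i := ⟨_, rfl⟩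
  obtain ⟨κw, hκw⟩ : ∃ t : ℝ, t = ∑ i, (k i : ℝ) * w i := ⟨_, rfl⟩
  have hk0 : ∑ i, (k i : ℝ) * (κw • v - κv • w) i = 0 := by
    have e1 : ∀ i, (k i : ℝ) * (κw • v - κv • w) i = κw * ((k i : ℝ) * v i) - κv * ((k i : ℝ) * w i) := by
      intro i
      simp only [Pi.sub_apply, Pi.smul_apply, smul_eq_mul]
      ring
    rw [Finset.sum_congr rfl fun i _ => e1 i, Finset.sum_sub_distrib, ← Finset.mul_sum, ← Finset.mul_sum,
      ← hκv, ← hκw]
    ring
  have hB0 := hz _ hk0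
  simp only [map_sub, map_smul, LinearMap.sub_apply, LinearMap.smul_apply, Complex.real_smul] at hB0
  rw [hsym w v] at hB0
  rw [hsum, hd, hd, hd, ← hκv, ← hκw]
  push_cast
  linear_combination (-(4 * (Real.pi : ℂ) ^ 2)) * hB0 +
    ((2 * (Real.pi : ℂ) * κw) ^ 2 * B v v - 2 * (2 * (Real.pi : ℂ) * κw) * (2 * (Real.pi : ℂ) * κv) * B v w +
      (2 * (Real.pi : ℂ) * κv) ^ 2 * B w w) * Complex.I_sq

end LibNC38
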