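import Pool.Agent.LibNG38.GK4
import Pool.Agent.LibNV38.V3
import Pool.Agent.LibNV38.V4
import Pool.Agent.LibNC38.K5a
import Pool.Agent.LibNC27.Defs

set_option autoImplicit false

open Matrix MeasureTheory Topology Filter

namespace LibNC38

private theorem V5_per {r : ℕ} (F F' : (Fin r → ℝ) → ℝ) (u : Fin r → ℝ) (hF : Per F)
    (hc : Continuous F') (hd : ∀ x, HasDerivAt (fun t : ℝ => F (x + t • u)) (F' x) 0) : Per F' := by
  refine ⟨hc, fun x k => ?_⟩
  have h1 := hd (x + fun i => (k i : ℝ))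
  have h2 : (fun t : ℝ => F (x + (fun i => (k i : ℝ)) + t • u)) = fun t : ℝ => F (x + t • u) := by
    funext t
    rw [add_right_comm, hF.2]
  rw [h2] at h1
  exact h1.unique (hd x)

/-- Row V5. On a closed regular flat through `g` the iterated difference of
`S x = J2 w w v v x - 2 * J2 w v v w x + J2 v v w w x` vanishes (compare `LibNC38/K5.lean`). GK4 gives
`e`; `K a b x = J (e a) (e b) (g * dgm (e x))`, `K1`, `K2` from `J1`, `J2` in the same way. `K` is
periodic by GK4, and `K1, K2` are derivatives of periodic functions, so periodic (uniqueness of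
derivatives), continuous by `Inv`. The derivatives: `dgm (e (x + t u)) = dgm (e x) * dgm (t • e u)`
and `A.d1`, `A.d2` (`Rd`) at the point `g * dgm (e x)`. `β j x = (e x) (a j) - (e x) (b j)`. The X-ray
hypothesis of V4: `β j l ≠ 0` for all `j` implies by `hall` that `e l` has distinct coordinates, GK4.
V4 for `e⁻¹ v`, `e⁻¹ w`, V3 with `w' j = e⁻¹ (ws j)`, `dl_map` and `gdl_dl` (K5a) at `y = 0`. -/
theorem gdlS_zero_at {n : ℕ} (hn : 2 ≤ n) (Γ : Subgroup (SL n)) (hd : Disc Γ) (hc : Coc Γ)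
    (κ : PD n → Fm n) (h : ℕ → PD n → Fm n) (δ : ℕ → ℝ) (hD : Defo Γ κ h δ)
    (J : V0 n →ₗ[ℝ] V0 n →ₗ[ℝ] LibNC27.Fn n)
    (J1 : V0 n →ₗ[ℝ] V0 n →ₗ[ℝ] V0 n →ₗ[ℝ] LibNC27.Fn n)
    (J2 : V0 n →ₗ[ℝ] V0 n →ₗ[ℝ] V0 n →ₗ[ℝ] V0 n →ₗ[ℝ] LibNC27.Fn n)
    (A : LibNC27.Ab Γ J J1 J2) (hJ : ∀ v w g, J v w g = Jf κ (dm v) (dm w) g) (g α : SL n)
    (hα : IsDiag α) (hr : Reg α) (hαΓ : g * α * g⁻¹ ∈ Γ) {m : ℕ} (hm : 0 < m)
    (a b : Fin m → Fin n) (hab : ∀ j, a j ≠ b j)
    (hall : ∀ i i' : Fin n, i ≠ i' → ∃ j, (a j = i ∧ b j = i') ∨ (a j = i' ∧ b j = i))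
    (ws : Fin m → V0 n) (hw : ∀ j, (ws j).1 (a j) = (ws j).1 (b j)) (v w : V0 n) :
    gdl (List.ofFn ws) (fun x => J2 w w v v x - 2 * J2 w v v w x + J2 v v w w x) g = 0 := by
  classical
  obtain ⟨e, hper, hx⟩ := xrayJ hn Γ hd hc κ h δ hD g α hα hr hαΓ
  have hdgadd : ∀ y z : V0 n, dgm (y + z) = dgm y * dgm z := flat_facts.2.1
  have hdgc : Continuous (dgm : V0 n → SL n) := flat_facts.2.2.2.2.2.2.2.2.2.1
  have hdg0 : dgm (0 : V0 n) = 1 := flat_facts.2.2.2.2.2.2.2.2.2.2.2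
  have hcp : Continuous fun x : Fin (n - 1) → ℝ => g * dgm (e x) :=
    continuous_const.mul (hdgc.comp e.continuous)
  -- the family of forms on the torus
  let res : LibNC27.Fn n →ₗ[ℝ] ((Fin (n - 1) → ℝ) → ℝ) :=
    LinearMap.funLeft ℝ ℝ (fun x : Fin (n - 1) → ℝ => g * dgm (e x))
  let K : (Fin (n - 1) → ℝ) →ₗ[ℝ] (Fin (n - 1) → ℝ) →ₗ[ℝ] ((Fin (n - 1) → ℝ) → ℝ) :=
    (J.compl₁₂ e.toLinearEquiv.toLinearMap e.toLinearEquiv.toLinearMap).compr₂ res
  let K1 : (Fin (n - 1) → ℝ) → (Fin (n - 1) → ℝ) → (Fin (n - 1) → ℝ) → ((Fin (n - 1) → ℝ) → ℝ) :=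
    fun u v w x => J1 (e u) (e v) (e w) (g * dgm (e x))
  let K2 : (Fin (n - 1) → ℝ) → (Fin (n - 1) → ℝ) → (Fin (n - 1) → ℝ) → (Fin (n - 1) → ℝ) →
      ((Fin (n - 1) → ℝ) → ℝ) := fun u u' v w x => J2 (e u) (e u') (e v) (e w) (g * dgm (e x))
  have hKa : ∀ v w x, K v w x = J (e v) (e w) (g * dgm (e x)) := fun v w x => rfl
  have hpt : ∀ (x u : Fin (n - 1) → ℝ) (t : ℝ),
      g * dgm (e (x + t • u)) = g * dgm (e x) * dgm (t • e u) := by
    intro x u t
    rw [map_add, map_smul, hdgadd, mul_assoc]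
  have d1 : ∀ u v w x, HasDerivAt (fun t : ℝ => K v w (x + t • u)) (K1 u v w x) 0 := by
    intro u v w x
    have h1 := A.d1 (e u) (e v) (e w) (g * dgm (e x))
    have h2 : (fun t : ℝ => K v w (x + t • u)) =
        fun t : ℝ => J (e v) (e w) (g * dgm (e x) * dgm (t • e u)) := by
      funext t
      rw [hKa, hpt]
    rw [h2]
    exact h1
  have d2 : ∀ u u' v w x, HasDerivAt (fun t : ℝ => K1 u' v w (x + t • u)) (K2 u u' v w x) 0 := by
    intro u u' v w x
    have h1 := A.d2 (e u) (e u') (e v) (e w) (g * dgm (e x))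
    have h2 : (fun t : ℝ => K1 u' v w (x + t • u)) =
        fun t : ℝ => J1 (e u') (e v) (e w) (g * dgm (e x) * dgm (t • e u)) := by
      funext t
      show J1 (e u') (e v) (e w) (g * dgm (e (x + t • u))) = _
      rw [hpt]
    rw [h2]
    exact h1
  have h0 : ∀ v w, Per (K v w) := by
    intro v w
    have h1 := hper (e v) (e w)
    have h2 : K v w = fun x => Jf κ (dm (e v)) (dm (e w)) (g * dgm (e x)) := by
      funext x
      rw [hKa, hJ]
    rw [h2]
    exact h1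
  have h1 : ∀ u v w, Per (K1 u v w) := fun u v w =>
    V5_per (K v w) (K1 u v w) u (h0 v w) ((A.inv1 (e u) (e v) (e w)).cont.comp hcp) (d1 u v w)
  have h2 : ∀ u u' v w, Per (K2 u u' v w) := fun u u' v w =>
    V5_per (K1 u' v w) (K2 u u' v w) u (h1 u' v w) ((A.inv2 (e u) (e u') (e v) (e w)).cont.comp hcp)
      (d2 u u' v w)
  have hs : ∀ v w, K v w = K w v := by
    intro v w
    funext x
    rw [hKa, hKa, A.sym0]
  let β : Fin m → ((Fin (n - 1) → ℝ) →ₗ[ℝ] ℝ) := fun j =>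
    { toFun := fun x => (e x).1 (a j) - (e x).1 (b j)
      map_add' := by
        intro x y
        rw [map_add]
        simp only [Submodule.coe_add, PiLp.add_apply]
        ring
      map_smul' := by
        intro c x
        rw [map_smul]
        simp only [Submodule.coe_smul, PiLp.smul_apply, smul_eq_mul, RingHom.id_apply]
        ring }
  have hβv : ∀ j x, β j x = (e x).1 (a j) - (e x).1 (b j) := fun j x => rfl
  have hw' : ∀ j, β j (e.symm (ws j)) = 0 := by
    intro j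
    rw [hβv, ContinuousLinearEquiv.apply_symm_apply, hw j, sub_self]
  have hβ0 : ∀ j, β j ≠ 0 := by
    intro j h0
    let y : V0 n := ⟨WithLp.toLp 2 (fun i => (if i = a j then (1 : ℝ) else 0) -
      (if i = b j then (1 : ℝ) else 0)), by
        change ∑ i, _ = (0 : ℝ)
        simp [Finset.sum_sub_distrib]⟩
    have h1 : β j (e.symm y) = 2 := by
      rw [hβv, ContinuousLinearEquiv.apply_symm_apply]
      change ((if a j = a j then (1 : ℝ) else 0) - (if a j = b j then (1 : ℝ) else 0)) -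
        ((if b j = a j then (1 : ℝ) else 0) - (if b j = b j then (1 : ℝ) else 0)) = 2
      rw [if_pos rfl, if_neg (hab j), if_neg (fun h => hab j h.symm), if_pos rfl]
      norm_num
    rw [h0] at h1
    simp at h1
  have hx' : ∀ l : Fin (n - 1) → ℤ, (∀ j, β j (fun i => (l i : ℝ)) ≠ 0) →
      ∃ c, ∀ y, ∫ s in (0 : ℝ)..1,
        K (fun i => (l i : ℝ)) (fun i => (l i : ℝ)) (y + s • fun i => (l i : ℝ)) = c := by
    intro l hl
    obtain ⟨c, hcy⟩ := hx l (by
      intro i i' hii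
      obtain ⟨j, hj | hj⟩ := hall i i' hii
      · have := hl j
        rw [hβv, hj.1, hj.2] at this
        exact sub_ne_zero.1 this
      · have := hl j
        rw [hβv, hj.1, hj.2] at this
        exact (sub_ne_zero.1 this).symm)
    refine ⟨c, fun y => ?_⟩
    rw [← hcy y]
    refine intervalIntegral.integral_congr fun s _ => ?_
    show K (fun i => (l i : ℝ)) (fun i => (l i : ℝ)) (y + s • fun i => (l i : ℝ)) = _
    rw [hKa, hJ]
  have hfc := curv_fc K K1 K2 h0 h1 h2 hs d1 d2 β hx'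
  obtain ⟨v', hv'⟩ : ∃ v', v' = e.symm v := ⟨_, rfl⟩
  obtain ⟨w', hw''⟩ : ∃ w', w' = e.symm w := ⟨_, rfl⟩
  have hev : e v' = v := by rw [hv', ContinuousLinearEquiv.apply_symm_apply]
  have hew : e w' = w := by rw [hw'', ContinuousLinearEquiv.apply_symm_apply]
  have hf : Per (fun x => K2 w' w' v' v' x - 2 * K2 w' v' v' w' x + K2 v' v' w' w' x) := by
    refine ⟨((h2 w' w' v' v').1.sub (continuous_const.mul (h2 w' v' v' w').1)).add
      (h2 v' v' w' w').1, fun x k => ?_⟩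
    show K2 w' w' v' v' (x + _) - 2 * K2 w' v' v' w' (x + _) + K2 v' v' w' w' (x + _) = _
    rw [(h2 w' w' v' v').2, (h2 w' v' v' w').2, (h2 v' v' w' w').2]
  have hz := dl_zero' hm (fun x => K2 w' w' v' v' x - 2 * K2 w' v' v' w' x + K2 v' v' w' w' x) hf β
    (fun j => e.symm (ws j)) hw' hβ0 (fun k hk hβk => hfc k hk hβk v' w') 0
  have hfS : (fun x => K2 w' w' v' v' x - 2 * K2 w' v' v' w' x + K2 v' v' w' w' x) =
      fun x => (fun y : V0 n => J2 w w v v (g * dgm y) - 2 * J2 w v v w (g * dgm y) +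
        J2 v v w w (g * dgm y)) (e x) := by
    funext x
    show J2 (e w') (e w') (e v') (e v') (g * dgm (e x)) -
      2 * J2 (e w') (e v') (e v') (e w') (g * dgm (e x)) +
      J2 (e v') (e v') (e w') (e w') (g * dgm (e x)) = _
    rw [hev, hew]
  rw [hfS] at hz
  have g1 := gdl_dl (List.ofFn ws) (fun x => J2 w w v v x - 2 * J2 w v v w x + J2 v v w w x) g 0
  rw [hdg0, mul_one] at g1
  rw [g1]
  have h3 := dl_map (e.toLinearEquiv.toLinearMap.toAddMonoidHom : (Fin (n - 1) → ℝ) →+ V0 n)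
    (List.ofFn fun j => e.symm (ws j)) (fun y : V0 n => J2 w w v v (g * dgm y) -
      2 * J2 w v v w (g * dgm y) + J2 v v w w (g * dgm y)) 0
  have h4 : (List.ofFn fun j => e.symm (ws j)).map
      (e.toLinearEquiv.toLinearMap.toAddMonoidHom : (Fin (n - 1) → ℝ) →+ V0 n) = List.ofFn ws := by
    rw [List.map_ofFn]
    congr 1
    funext j
    exact e.apply_symm_apply (ws j)
  rw [h4, map_zero] at h3
  rw [← h3]
  exact hz

end LibNC38
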